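import Pool.Agent.MQG.StmtsB

/-!
# Squad MQG, row SPA: separability of `Al U`
-/

set_option autoImplicit false

namespace Pool.Agent.MQG.H79

open Pool.Agent.MQG
open scoped InnerProductSpace InnerProduct Topology
open Complex Filter

/-- the square summable functions on a countable set form a separable space -/
theorem sep_L2 (ι : Type) [Countable ι] : TopologicalSpace.SeparableSpace (L2 ι) := by
  have hb := (HilbertBasis.ofRepr (LinearIsometryEquiv.refl ℂ (L2 ι)) :
    HilbertBasis ι ℂ (L2 ι)).dense_span
  have h1 : TopologicalSpace.IsSeparable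
      (Set.range (HilbertBasis.ofRepr (LinearIsometryEquiv.refl ℂ (L2 ι)) :
        HilbertBasis ι ℂ (L2 ι))) := (Set.countable_range _).isSeparable
  have h2 := (h1.span (R := ℂ)).closure
  rw [← Submodule.topologicalClosure_coe, hb] at h2
  exact TopologicalSpace.isSeparable_univ_iff.1 h2

/-- the slices, as a bounded sesquilinear map -/
noncomputable def aslForm {κ ι : Type} (U : Op (κ × ι)) : L2 ι →L⋆[ℂ] L2 ι →L[ℂ] Al U :=
  LinearMap.mkContinuous₂
    (LinearMap.mk₂'ₛₗ (starRingEnd ℂ) (RingHom.id ℂ) (fun u y => asl U u y)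
      (fun u u' y => val_injective (by simpa using sl_add_left U u u' y))
      (fun r u y => val_injective (by simpa using sl_smul_left U r u y))
      (fun u y y' => val_injective (by simpa using sl_add_right U u y y'))
      (fun r u y => val_injective (by simpa using sl_smul_right U r u y)))
    ‖U‖ (fun u y => norm_sl_le U u y)

theorem spa (dns : DnsStmt) : SpaStmt := by
  intro ι _ M κ U hU
  have hs := sep_L2 ι
  have hc : Continuous fun q : L2 ι × L2 ι => aslForm U q.1 q.2 :=
    ((aslForm U).continuous.comp continuous_fst).clm_apply continuous_snd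
  have h1 : TopologicalSpace.IsSeparable
      (Set.range fun q : L2 ι × L2 ι => aslForm U q.1 q.2) :=
    TopologicalSpace.isSeparable_range hc
  have h2 : {a : Al U | ∃ u y, a = asl U u y} =
      Set.range fun q : L2 ι × L2 ι => aslForm U q.1 q.2 := by
    ext a
    constructor
    · rintro ⟨u, y, rfl⟩
      exact ⟨(u, y), rfl⟩
    · rintro ⟨⟨u, y⟩, rfl⟩
      exact ⟨u, y, rfl⟩
  have h3 := dns ι M κ U hU
  rw [h2] at h3
  have h4 := (h1.span (R := ℂ)).closure
  rw [h3.closure_eq] at h4
  exact TopologicalSpace.isSeparable_univ_iff.1 h4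

end Pool.Agent.MQG.H79
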